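import Pool.Agent.W810.SYN.Stm

set_option autoImplicit false

namespace Pool.Agent.W771.SYN.CLS

open MeasureTheory AddCircle Filter Topology Pool.Agent.Results.MP_535799_an.NonSidon
open Pool.Agent.W810.SYN

noncomputable section

/-- approximation by trigonometric polynomials -/
theorem approx (s : L1) (ε : ℝ) (hε : 0 < ε) :
    ∃ h : L1, ‖s - h‖ ≤ ε ∧ {n : ℤ | coeff h n ≠ 0}.Finite := by
  have h0 : s ∈ closure ((Submodule.span ℂ (Set.range (@fourierLp (2 * Real.pi) _ 1 _)) :
      Submodule ℂ L1) : Set L1) := by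
    have h1 := span_fourierLp_closure_eq_top (T := 2 * Real.pi) (p := 1) (by norm_num)
    have h2 : s ∈ (Submodule.span ℂ (Set.range (@fourierLp (2 * Real.pi) _ 1 _))).topologicalClosure := by
      rw [h1]; trivial
    exact h2
  rw [Metric.mem_closure_iff] at h0
  obtain ⟨h, hh, hd⟩ := h0 ε hε
  refine ⟨h, ?_, ?_⟩
  · rw [← dist_eq_norm]; exact hd.le
  · clear hd
    induction hh using Submodule.span_induction with
    | mem x hx =>
      obtain ⟨n, rfl⟩ := hx
      refine (Set.finite_singleton n).subset ?_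
      intro m hm
      by_contra hne
      apply hm
      rw [coeff_fourierLp]
      exact if_neg (fun h5 => hne (Set.mem_singleton_iff.2 h5))
    | zero =>
      refine Set.finite_empty.subset ?_
      intro m hm
      exact (hm (coeff_zero m)).elim
    | add x y _ _ hx hy =>
      refine (hx.union hy).subset ?_
      intro m hm
      by_contra hne
      rw [Set.mem_union, not_or] at hne
      have h1 : coeff x m = 0 := not_not.1 hne.1
      have h2 : coeff y m = 0 := not_not.1 hne.2
      apply hm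
      rw [coeff_add, h1, h2, add_zero]
    | smul a x _ hx =>
      refine hx.subset ?_
      intro m hm h1
      apply hm
      rw [coeff_smul, h1, mul_zero]

/-- convolution powers -/
def pw (s : L1) : ℕ → L1
  | 0 => s
  | j + 1 => conv s (pw s j)

theorem coeff_pw (s : L1) (j : ℕ) (n : ℤ) : coeff (pw s j) n = (coeff s n) ^ (j + 1) := by
  induction j with
  | zero => rw [zero_add, pow_one]; rfl
  | succ j ih =>
    show coeff (conv s (pw s j)) n = _
    rw [coeff_conv, ih, pow_succ' (coeff s n) (j + 1)]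

theorem pw_bound (s : L1) (hs : ∀ n, ‖coeff s n‖ ≤ 1 / 4) :
    ∃ B : ℝ, 0 ≤ B ∧ ∀ j, ‖pw s j‖ ≤ (1 / 2) ^ j * B := by
  obtain ⟨h, hh, hfin⟩ := approx s (1 / 4) (by norm_num)
  have hsum : Summable (fun n => ‖coeff h n‖ ^ 2) := by
    apply summable_of_hasFiniteSupport
    refine hfin.subset ?_
    intro n hn h1
    apply hn
    show ‖coeff h n‖ ^ 2 = 0
    rw [h1]; simp
  set Sg : ℝ := ∑' n, ‖coeff h n‖ ^ 2 with hSg
  have hSg0 : 0 ≤ Sg := tsum_nonneg (fun n => by positivity)
  set H := Real.sqrt Sg with hH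
  have hH0 : 0 ≤ H := Real.sqrt_nonneg _
  refine ⟨‖s‖ + H, by positivity, ?_⟩
  intro j
  induction j with
  | zero =>
    show ‖s‖ ≤ _
    rw [pow_zero, one_mul]
    linarith
  | succ j ih =>
    have e : pw s (j + 1) = conv h (pw s j) + conv (s - h) (pw s j) := by
      rw [← sub_eq_zero]
      apply eq_zero_of_coeff
      intro n
      show coeff (conv s (pw s j) - _) n = 0
      rw [coeff_sub, coeff_add, coeff_conv, coeff_conv, coeff_conv, coeff_sub]
      ring
    have h1 : ‖conv (s - h) (pw s j)‖ ≤ 1 / 4 * ‖pw s j‖ :=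
      (norm_conv_le _ _).trans (mul_le_mul_of_nonneg_right hh (norm_nonneg _))
    have hpt : ∀ n, ‖coeff (conv h (pw s j)) n‖ ^ 2 ≤ ((1 / 4) ^ (j + 1)) ^ 2 * ‖coeff h n‖ ^ 2 := by
      intro n
      rw [coeff_conv, coeff_pw, norm_mul, norm_pow, mul_pow, mul_comm]
      apply mul_le_mul_of_nonneg_right _ (by positivity)
      apply pow_le_pow_left₀ (by positivity)
      exact pow_le_pow_left₀ (norm_nonneg _) (hs n) _
    have hsm : Summable (fun n => ‖coeff (conv h (pw s j)) n‖ ^ 2) :=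
      Summable.of_nonneg_of_le (fun n => by positivity) hpt (hsum.mul_left _)
    have h2 : ‖conv h (pw s j)‖ ≤ (1 / 4) ^ (j + 1) * H := by
      apply norm_le_of_coeff _ hsm _ (by positivity)
      calc ∑' n, ‖coeff (conv h (pw s j)) n‖ ^ 2
          ≤ ∑' n, ((1 / 4) ^ (j + 1)) ^ 2 * ‖coeff h n‖ ^ 2 :=
            hsm.tsum_le_tsum hpt (hsum.mul_left _)
        _ = ((1 / 4) ^ (j + 1)) ^ 2 * Sg := by rw [tsum_mul_left]
        _ = ((1 / 4) ^ (j + 1) * H) ^ 2 := by rw [mul_pow, hH, Real.sq_sqrt hSg0]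
    have h3 : ((1 : ℝ) / 4) ^ (j + 1) ≤ (1 / 2) ^ j * (1 / 4) := by
      rw [pow_succ]
      apply mul_le_mul_of_nonneg_right _ (by norm_num)
      exact pow_le_pow_left₀ (by norm_num) (by norm_num) _
    have h4 : (1 / 4 : ℝ) ^ (j + 1) * H ≤ (1 / 2) ^ j * (1 / 4) * H :=
      mul_le_mul_of_nonneg_right h3 hH0
    have h5 : 0 ≤ (1 / 2 : ℝ) ^ j * ‖s‖ := by positivity
    rw [e]
    calc ‖conv h (pw s j) + conv (s - h) (pw s j)‖
        ≤ ‖conv h (pw s j)‖ + ‖conv (s - h) (pw s j)‖ := norm_add_le _ _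
      _ ≤ (1 / 2) ^ j * (1 / 4) * H + 1 / 4 * ((1 / 2) ^ j * (‖s‖ + H)) := by linarith
      _ ≤ (1 / 2) ^ (j + 1) * (‖s‖ + H) := by
        rw [pow_succ]
        nlinarith

theorem level_finite (hRL : S_RL) (f : L1) (c : ℝ) (hc : 0 < c) :
    {n : ℤ | c ≤ ‖coeff f n‖}.Finite := by
  obtain ⟨M, hM⟩ := (hRL f).1 c hc
  refine (Set.finite_Icc (-(M : ℤ)) M).subset ?_
  intro n hn
  by_contra h
  rw [Set.mem_Icc, ← abs_le] at h
  push Not at h
  have := hM n h.le
  exact absurd hn (not_le.2 this)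

theorem idem_mem' (hRL : S_RL) (A : Submodule ℂ L1) (hAc : IsClosed (A : Set L1))
    (hA : ∀ f ∈ A, ∀ g ∈ A, conv f g ∈ A) (f : L1) (hf : f ∈ A) (c : ℂ) (hc : c ≠ 0)
    (S : Finset ℤ) (hS : ∀ n, n ∈ S ↔ coeff f n = c) : idem S ∈ A := by
  classical
  have hcpos : 0 < ‖c‖ := norm_pos_iff.mpr hc
  have hfin : {n : ℤ | ‖c‖ / 2 ≤ ‖coeff f n‖}.Finite := level_finite hRL f _ (by positivity)
  set V : Finset ℂ := (hfin.toFinset.image (fun n => coeff f n)).erase c with hV
  set D : ℝ := ∏ v ∈ V, ((‖c‖ + ‖v‖) / ‖c - v‖) with hD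
  have hD0 : 0 ≤ D := by
    rw [hD]
    exact Finset.prod_nonneg (fun v _ => by positivity)
  obtain ⟨k, hk⟩ : ∃ k : ℕ, (1 / 2 : ℝ) ^ k * D ≤ 1 / 4 := by
    have h1 : Tendsto (fun k : ℕ => (1 / 2 : ℝ) ^ k * D) atTop (𝓝 (0 * D)) :=
      (tendsto_pow_atTop_nhds_zero_of_lt_one (by norm_num) (by norm_num)).mul_const D
    rw [zero_mul] at h1
    obtain ⟨k, hk⟩ := (h1.eventually (gt_mem_nhds (show (0 : ℝ) < 1 / 4 by norm_num))).exists
    exact ⟨k, hk.le⟩
  obtain ⟨g, hg, hgn⟩ := exists_prod A hA f hf c k V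
  have hgS : ∀ n ∈ S, coeff g n = 1 := by
    intro n hn
    have hfc := (hS n).mp hn
    rw [hgn]
    have h1 : ∏ v ∈ V, ((coeff f n - v) / (c - v)) = 1 := by
      apply Finset.prod_eq_one
      intro v hv
      rw [hfc]
      apply div_self
      rw [sub_ne_zero]
      exact (Finset.ne_of_mem_erase hv).symm
    rw [h1, hfc, div_self hc, one_pow, one_mul]
  have hgn' : ∀ n, n ∉ S → ‖coeff g n‖ ≤ 1 / 4 := by
    intro n hn
    have hne : coeff f n ≠ c := fun h => hn ((hS n).mpr h)
    rw [hgn]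
    by_cases hbig : ‖c‖ / 2 ≤ ‖coeff f n‖
    · have hmem : coeff f n ∈ V := by
        rw [hV, Finset.mem_erase]
        refine ⟨hne, Finset.mem_image.mpr ⟨n, ?_, rfl⟩⟩
        simpa using hbig
      rw [Finset.prod_eq_zero hmem (by simp)]
      simp only [mul_zero, norm_zero]
      norm_num
    · push Not at hbig
      rw [norm_mul, norm_pow, norm_div, norm_prod]
      have h1 : ∏ v ∈ V, ‖(coeff f n - v) / (c - v)‖ ≤ D := by
        apply Finset.prod_le_prod (fun v _ => norm_nonneg _)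
        intro v _
        rw [norm_div]
        apply div_le_div_of_nonneg_right _ (norm_nonneg _)
        exact (norm_sub_le _ _).trans (by linarith)
      have h0 : ‖coeff f n‖ / ‖c‖ ≤ 1 / 2 := by
        rw [div_le_iff₀ hcpos]
        linarith
      have h2 : (‖coeff f n‖ / ‖c‖) ^ (k + 1) ≤ (1 / 2) ^ k := by
        calc (‖coeff f n‖ / ‖c‖) ^ (k + 1) ≤ (1 / 2) ^ (k + 1) :=
              pow_le_pow_left₀ (by positivity) h0 _
          _ ≤ (1 / 2) ^ k := pow_le_pow_of_le_one (by norm_num) (by norm_num) (Nat.le_succ k)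
      calc (‖coeff f n‖ / ‖c‖) ^ (k + 1) * ∏ v ∈ V, ‖(coeff f n - v) / (c - v)‖
          ≤ (1 / 2) ^ k * D :=
            mul_le_mul h2 h1 (Finset.prod_nonneg (fun v _ => norm_nonneg _)) (by positivity)
        _ ≤ 1 / 4 := hk
  set s : L1 := g - idem S with hsdef
  have hs : ∀ n, ‖coeff s n‖ ≤ 1 / 4 := by
    intro n
    rw [hsdef, coeff_sub, coeff_idem]
    by_cases hn : n ∈ S
    · rw [if_pos hn, hgS n hn, sub_self, norm_zero]
      norm_num
    · rw [if_neg hn, sub_zero]
      exact hgn' n hn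
  obtain ⟨B, hB, hBj⟩ := pw_bound s hs
  have hpow : ∀ j : ℕ, ∃ u ∈ A, ‖u - idem S‖ ≤ (1 / 2) ^ j * B := by
    intro j
    obtain ⟨u, hu, hun⟩ := exists_pow A hA g hg 1 j
    refine ⟨u, hu, ?_⟩
    have e : u - idem S = pw s j := by
      rw [← sub_eq_zero]
      apply eq_zero_of_coeff
      intro n
      rw [coeff_sub, coeff_sub, coeff_pw, hun, hsdef, coeff_sub, coeff_idem, div_one]
      by_cases hn : n ∈ S
      · rw [if_pos hn, hgS n hn]
        simp
      · rw [if_neg hn]
        simp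
    rw [e]
    exact hBj j
  choose u huA hun using hpow
  have hlim : Tendsto u atTop (𝓝 (idem S)) := by
    rw [tendsto_iff_norm_sub_tendsto_zero]
    refine squeeze_zero (fun _ => norm_nonneg _) hun ?_
    have := (tendsto_pow_atTop_nhds_zero_of_lt_one (r := (1 / 2 : ℝ)) (by norm_num)
      (by norm_num)).mul_const B
    simpa using this
  exact hAc.mem_of_tendsto hlim (Eventually.of_forall huA)

/-- level sets -/
theorem exists_level (hRL : S_RL) (A : Submodule ℂ L1) (hAc : IsClosed (A : Set L1))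
    (hA : ∀ f ∈ A, ∀ g ∈ A, conv f g ∈ A) (f : L1) (hf : f ∈ A) (c : ℂ) (hc : c ≠ 0) :
    ∃ T : Finset ℤ, (∀ n, n ∈ T ↔ coeff f n = c) ∧ idem T ∈ A := by
  have hfin : {n : ℤ | coeff f n = c}.Finite := by
    refine (level_finite hRL f ‖c‖ (norm_pos_iff.2 hc)).subset ?_
    intro n hn
    have hn' : coeff f n = c := hn
    show ‖c‖ ≤ ‖coeff f n‖
    rw [hn']
  refine ⟨hfin.toFinset, fun n => by simp, ?_⟩
  exact idem_mem' hRL A hAc hA f hf c hc _ (fun n => by simp)

theorem idem_inter (S T : Finset ℤ) : conv (idem S) (idem T) = idem (S ∩ T) := by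
  classical
  rw [← sub_eq_zero]
  apply eq_zero_of_coeff
  intro n
  rw [coeff_sub, coeff_conv, coeff_idem, coeff_idem, coeff_idem]
  by_cases h1 : n ∈ S <;> by_cases h2 : n ∈ T <;> simp [h1, h2]

theorem idem_sdiff (S T : Finset ℤ) : idem S - conv (idem S) (idem T) = idem (S \ T) := by
  classical
  rw [← sub_eq_zero]
  apply eq_zero_of_coeff
  intro n
  rw [coeff_sub, coeff_sub, coeff_conv, coeff_idem, coeff_idem, coeff_idem]
  by_cases h1 : n ∈ S <;> by_cases h2 : n ∈ T <;> simp [h1, h2]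

theorem main (hRL : S_RL) : S_CLS := by
  classical
  intro A hAc hA n0 S hex hS
  have hsub : ∀ T : Finset ℤ, idem T ∈ A → n0 ∈ T → S ⊆ T := by
    intro T hT h0 n hn
    have h1 := (hS n).1 hn (idem T) hT
    rw [coeff_idem, coeff_idem, if_pos h0] at h1
    by_contra h
    rw [if_neg h] at h1
    exact zero_ne_one h1
  have key : ∀ (k : ℕ) (T : Finset ℤ), T.card ≤ k → idem T ∈ A → n0 ∈ T → idem S ∈ A := by
    intro k
    induction k with
    | zero =>
      intro T hT _ h0
      have : T = ∅ := Finset.card_eq_zero.1 (Nat.le_zero.1 hT)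
      rw [this] at h0
      exact absurd h0 (Finset.notMem_empty _)
    | succ k ih =>
      intro T hT hTA h0
      by_cases h : T ⊆ S
      · have : T = S := Finset.Subset.antisymm h (hsub T hTA h0)
        rw [← this]; exact hTA
      · rw [Finset.not_subset] at h
        obtain ⟨m, hmT, hmS⟩ := h
        have h1 : ¬ ∀ f ∈ A, coeff f m = coeff f n0 := fun h2 => hmS ((hS m).2 h2)
        push Not at h1
        obtain ⟨g, hg, hne⟩ := h1
        by_cases h2 : coeff g n0 = 0
        · have h3 : coeff g m ≠ 0 := by rw [h2] at hne; exact hne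
          obtain ⟨T', hT', hTA'⟩ := exists_level hRL A hAc hA g hg _ h3
          have hm' : m ∈ T' := (hT' m).2 rfl
          have h0' : n0 ∉ T' := fun h4 => hne ((hT' n0).1 h4).symm
          have hA' : idem (T \ T') ∈ A := by
            rw [← idem_sdiff]
            exact A.sub_mem hTA (hA _ hTA _ hTA')
          refine ih (T \ T') ?_ hA' (Finset.mem_sdiff.2 ⟨h0, h0'⟩)
          have hlt : (T \ T').card < T.card := by
            apply Finset.card_lt_card
            refine Finset.ssubset_iff_subset_ne.2 ⟨Finset.sdiff_subset, fun h5 => ?_⟩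
            have : m ∈ T \ T' := by rw [h5]; exact hmT
            exact (Finset.mem_sdiff.1 this).2 hm'
          omega
        · obtain ⟨T', hT', hTA'⟩ := exists_level hRL A hAc hA g hg _ h2
          have h0' : n0 ∈ T' := (hT' n0).2 rfl
          have hm' : m ∉ T' := fun h4 => hne ((hT' m).1 h4)
          have hA' : idem (T ∩ T') ∈ A := by
            rw [← idem_inter]
            exact hA _ hTA _ hTA'
          refine ih (T ∩ T') ?_ hA' (Finset.mem_inter.2 ⟨h0, h0'⟩)
          have hlt : (T ∩ T').card < T.card := by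
            apply Finset.card_lt_card
            refine Finset.ssubset_iff_subset_ne.2 ⟨Finset.inter_subset_left, fun h5 => ?_⟩
            have : m ∈ T ∩ T' := by rw [h5]; exact hmT
            exact hm' (Finset.mem_inter.1 this).2
          omega
  obtain ⟨f, hf, hfn⟩ := hex
  obtain ⟨T, hT, hTA⟩ := exists_level hRL A hAc hA f hf _ hfn
  exact key T.card T le_rfl hTA ((hT n0).2 rfl)

end

end Pool.Agent.W771.SYN.CLS
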